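import Pool.Agent.Helper64.MH.Defs

/-!
# Part TWO: the two-body inequality for a body and its reflection
-/

set_option autoImplicit false

noncomputable section

namespace MH.Helper32

open MeasureTheory Set Filter Topology
open scoped ENNReal Pointwise

/-- a compact subset of the interior of a convex body lies in a polytope spanned by points of it -/
lemma exists_finset {n : ℕ} {K E : Set (Fin n → ℝ)} (hE : IsCompact E) (hE2 : E ⊆ interior K) :
    ∃ F : Finset (Fin n → ℝ), (F : Set (Fin n → ℝ)) ⊆ K ∧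
      E ⊆ interior (convexHull ℝ (F : Set (Fin n → ℝ))) := by
  classical
  set U : Finset K → Set (Fin n → ℝ) := fun F =>
    interior (convexHull ℝ (Subtype.val '' (F : Set K))) with hU
  have hmono : Monotone U := by
    intro F G hFG
    exact interior_mono (convexHull_mono (image_mono (Finset.coe_subset.2 hFG)))
  have hcover : E ⊆ ⋃ F, U F := by
    intro x hx
    obtain ⟨b, hb1, hb2⟩ := exists_mem_interior_convexHull_affineBasis
      (mem_interior_iff_mem_nhds.1 (hE2 hx))
    have hb3 : ∀ j, b j ∈ K := fun j => hb2 (subset_convexHull ℝ _ (mem_range_self j))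
    set F : Finset K := Finset.univ.image (fun j => (⟨b j, hb3 j⟩ : K)) with hF
    rw [mem_iUnion]
    refine ⟨F, interior_mono ?_ hb1⟩
    refine convexHull_mono ?_
    rintro _ ⟨j, rfl⟩
    exact ⟨⟨b j, hb3 j⟩, by simp [hF], rfl⟩
  obtain ⟨F, hF⟩ := hE.elim_directed_cover U (fun F => isOpen_interior) hcover hmono.directed_le
  refine ⟨F.image Subtype.val, ?_, ?_⟩
  · intro x hx
    rw [Finset.coe_image] at hx
    obtain ⟨k, _, rfl⟩ := hx
    exact k.2
  · rw [Finset.coe_image]
    exact hF

lemma smul_subset_interior {n : ℕ} {K : Set (Fin n → ℝ)} (hK : MH.Bd K) {l : ℝ} (h0 : 0 < l)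
    (h1 : l < 1) : l • K ⊆ interior K := by
  rintro _ ⟨k, hk, rfl⟩
  have h := hK.1.combo_interior_self_subset_interior (a := 1 - l) (b := l) (by linarith)
    h0.le (by ring)
  apply h
  refine ⟨0, ⟨0, hK.2.2, by simp⟩, l • k, ⟨k, hk, rfl⟩, by simp⟩

/-- TWO -/
theorem two (h : MH.S_POLY) : MH.S_TWO := by
  classical
  intro n K hK
  have hKc : IsCompact K := hK.2.1
  have hneg : ∀ X : Set (Fin n → ℝ), volume (-X) = volume X := fun X => Measure.measure_neg _ _
  -- the inequality with a factor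
  have key : ∀ l : ℝ, 0 < l → l < 1 →
      ENNReal.ofReal (l ^ (8 * n)) * (MH.kk (n + 1) * volume (K ∩ -K) ^ 5 *
        volume (convexHull ℝ (K ∪ -K)) ^ 3) ≤ volume K ^ 8 := by
    intro l hl0 hl1
    obtain ⟨F, hFK, hF⟩ := exists_finset (hKc.smul l) (smul_subset_interior hK hl0 hl1)
    set G : Finset (Fin n → ℝ) := F.image (fun x => -x) with hG
    have hGF : (G : Set (Fin n → ℝ)) = -(F : Set (Fin n → ℝ)) := by
      ext x
      simp only [hG, Finset.coe_image, mem_image, Set.mem_neg, Finset.mem_coe]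
      constructor
      · rintro ⟨y, hy, rfl⟩
        simpa using hy
      · intro hx
        exact ⟨-x, hx, by simp⟩
    have hGh : convexHull ℝ (G : Set (Fin n → ℝ)) = -convexHull ℝ (F : Set (Fin n → ℝ)) := by
      rw [hGF, convexHull_neg]
    have hF1 : convexHull ℝ (F : Set (Fin n → ℝ)) ⊆ K := convexHull_min hFK hK.1
    have hF2 : l • K ⊆ convexHull ℝ (F : Set (Fin n → ℝ)) := hF.trans interior_subset
    have h0F : (0 : Fin n → ℝ) ∈ interior (convexHull ℝ (F : Set (Fin n → ℝ))) := by
      apply hF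
      exact ⟨0, interior_subset hK.2.2, by simp⟩
    have h0G : (0 : Fin n → ℝ) ∈ interior (convexHull ℝ (G : Set (Fin n → ℝ))) := by
      rw [hGh]
      have h1 : -interior (convexHull ℝ (F : Set (Fin n → ℝ))) ⊆
          interior (-convexHull ℝ (F : Set (Fin n → ℝ))) :=
        interior_maximal (Set.neg_subset_neg.2 interior_subset) isOpen_interior.neg
      exact h1 (by simpa using h0F)
    have hint : (interior (convexHull ℝ (F : Set (Fin n → ℝ)) ∩
        convexHull ℝ (G : Set (Fin n → ℝ)))).Nonempty := by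
      rw [interior_inter]
      exact ⟨0, h0F, h0G⟩
    have hp := h n F G hint
    have e1 : volume (convexHull ℝ (F : Set (Fin n → ℝ))) ≤ volume K := measure_mono hF1
    have e2 : volume (convexHull ℝ (G : Set (Fin n → ℝ))) ≤ volume K := by
      rw [hGh, hneg]; exact e1
    have e3 : ENNReal.ofReal (l ^ n) * volume (K ∩ -K) ≤
        volume (convexHull ℝ (F : Set (Fin n → ℝ)) ∩ convexHull ℝ (G : Set (Fin n → ℝ))) := by
      have : ENNReal.ofReal (l ^ n) * volume (K ∩ -K) = volume (l • (K ∩ -K)) := by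
        rw [Measure.addHaar_smul]
        simp [abs_of_pos hl0]
      rw [this]
      refine measure_mono ?_
      rintro _ ⟨k, hk, rfl⟩
      refine ⟨hF2 ⟨k, hk.1, rfl⟩, ?_⟩
      rw [hGh]
      rw [Set.mem_neg]
      show -(l • k) ∈ convexHull ℝ (F : Set (Fin n → ℝ))
      rw [← smul_neg]
      exact hF2 ⟨-k, hk.2, rfl⟩
    have e4 : ENNReal.ofReal (l ^ n) * volume (convexHull ℝ (K ∪ -K)) ≤
        volume (convexHull ℝ ((F : Set (Fin n → ℝ)) ∪ G)) := by
      have : ENNReal.ofReal (l ^ n) * volume (convexHull ℝ (K ∪ -K)) =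
          volume (l • convexHull ℝ (K ∪ -K)) := by
        rw [Measure.addHaar_smul]
        simp [abs_of_pos hl0]
      rw [this]
      refine measure_mono ?_
      rw [← convexHull_smul]
      refine convexHull_min ?_ (convex_convexHull ℝ _)
      rintro _ ⟨k, hk, rfl⟩
      rcases hk with hk | hk
      · exact convexHull_mono subset_union_left (hF2 ⟨k, hk, rfl⟩)
      · refine convexHull_mono subset_union_right ?_
        rw [hGh]
        rw [Set.mem_neg]
        show -(l • k) ∈ convexHull ℝ (F : Set (Fin n → ℝ))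
        rw [← smul_neg]
        exact hF2 ⟨-k, hk, rfl⟩
    calc ENNReal.ofReal (l ^ (8 * n)) * (MH.kk (n + 1) * volume (K ∩ -K) ^ 5 *
        volume (convexHull ℝ (K ∪ -K)) ^ 3)
        = MH.kk (n + 1) * (ENNReal.ofReal (l ^ n) * volume (K ∩ -K)) ^ 5 *
          (ENNReal.ofReal (l ^ n) * volume (convexHull ℝ (K ∪ -K))) ^ 3 := by
          have : ENNReal.ofReal (l ^ (8 * n)) = ENNReal.ofReal (l ^ n) ^ 8 := by
            rw [← ENNReal.ofReal_pow (pow_nonneg hl0.le n), ← pow_mul, mul_comm n 8]
          rw [this]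
          ring
      _ ≤ MH.kk (n + 1) * volume (convexHull ℝ (F : Set (Fin n → ℝ)) ∩
            convexHull ℝ (G : Set (Fin n → ℝ))) ^ 5 *
          volume (convexHull ℝ ((F : Set (Fin n → ℝ)) ∪ G)) ^ 3 := by
          gcongr
      _ ≤ (volume (convexHull ℝ (F : Set (Fin n → ℝ))) *
          volume (convexHull ℝ (G : Set (Fin n → ℝ)))) ^ 4 := hp
      _ ≤ (volume K * volume K) ^ 4 := by gcongr
      _ = volume K ^ 8 := by ring
  -- let l tend to 1
  set A := MH.kk (n + 1) * volume (K ∩ -K) ^ 5 * volume (convexHull ℝ (K ∪ -K)) ^ 3 with hA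
  have hlim : Tendsto (fun l : ℝ => ENNReal.ofReal (l ^ (8 * n)) * A) (𝓝[<] 1) (𝓝 (1 * A)) := by
    have h1 : Tendsto (fun l : ℝ => ENNReal.ofReal (l ^ (8 * n))) (𝓝[<] 1) (𝓝 1) := by
      have : Tendsto (fun l : ℝ => ENNReal.ofReal (l ^ (8 * n))) (𝓝 1)
          (𝓝 (ENNReal.ofReal (1 ^ (8 * n)))) :=
        (ENNReal.continuous_ofReal.comp (continuous_pow (8 * n))).tendsto 1
      simp only [one_pow, ENNReal.ofReal_one] at this
      exact this.mono_left nhdsWithin_le_nhds
    exact ENNReal.Tendsto.mul_const h1 (Or.inl one_ne_zero)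
  rw [one_mul] at hlim
  refine le_of_tendsto hlim ?_
  have h01 : ∀ᶠ l : ℝ in 𝓝[<] 1, 0 < l :=
    (eventually_gt_nhds (by norm_num : (0 : ℝ) < 1)).filter_mono nhdsWithin_le_nhds
  filter_upwards [h01, self_mem_nhdsWithin] with l hl0 hl1
  exact key l hl0 hl1

end MH.Helper32

end
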